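import Pool.Agent.W353.EF.Defs

/-!
# The edge line of the L-functions of a smooth projective variety over extension fields: definitions

`X` is a smooth projective variety over a number field `K`, for example over `K = ℚ`, and `i` an
integer.  For every number field `F ⊇ K` the variety `X_F`, seen as a variety over `ℚ`, is smooth and
projective; `L(H^i(X_F), s)` is an Euler product over the primes of `F`.  The edge line is the line
`Re s = i/2 + 1`, the boundary of the half plane of absolute convergence.
-/

set_option autoImplicit false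

namespace Pool.Agent.W353.EH

open NumberField IsDedekindDomain Filter Topology Polynomial IntermediateField
open Pool.Agent.W353.EF (IsFrobenius LFun perm closure youngField quadField)
open scoped TensorProduct

/-- The point `i/2 + 1 + iτ` of the edge line. -/
noncomputable def edgePoint (i : ℕ) (τ : ℝ) : ℂ := (i : ℂ) / 2 + 1 + τ * Complex.I

section
variable {K : Type} [Field K] {n : ℕ}

/-- The polynomials `B v` are the Euler factors of `L(H^i(X_F), s)`, `B_v(z) = ∏ (1 - α_j z)` for
almost all primes `v` of `F`; at the other primes `B v` is an arbitrary polynomial, and no factor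
`1 / B_v(q_v^{-s})` has a pole at `s = i/2 + 1 + iτ`. -/
def IsEulerSystem (X : Set (MvPolynomial (Fin n) (𝓞 K))) (d i N : ℕ) {F : Type} [Field F]
    [NumberField F] [Algebra K F] (τ : ℝ) (B : HeightOneSpectrum (𝓞 F) → ℂ[X]) : Prop :=
  (∀ᶠ v in cofinite, ∃ α : Fin N → ℂ, IsFrobenius X d i v α ∧
    ∀ z : ℂ, (B v).eval z = ∏ j, (1 - α j * z)) ∧
  ∀ v, (B v).eval ((Ideal.absNorm v.asIdeal : ℂ) ^ (-edgePoint i τ)) ≠ 0

/-- `log |L(i/2 + 1 + iτ + ε)| / log(1/ε)`; for a function with a meromorphic continuation of order `m`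
at `i/2 + 1 + iτ` it tends to `-m` as `ε → 0+`. -/
noncomputable def size {F : Type} [Field F] [NumberField F] (i : ℕ) (τ : ℝ)
    (B : HeightOneSpectrum (𝓞 F) → ℂ[X]) (ε : ℝ) : ℝ :=
  Real.log ‖LFun B (edgePoint i τ + ε)‖ / Real.log (1 / ε)

/-- The Euler product has a meromorphic continuation to a neighbourhood of `i/2 + 1 + iτ`, of order `m`
at this point (`m < 0` for a pole, `m > 0` for a zero). -/
def HasOrder {F : Type} [Field F] [NumberField F] (i : ℕ) (τ : ℝ)
    (B : HeightOneSpectrum (𝓞 F) → ℂ[X]) (m : ℤ) : Prop :=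
  ∃ Λ : ℂ → ℂ, MeromorphicAt Λ (edgePoint i τ) ∧
    (∀ᶠ s in 𝓝 (edgePoint i τ), (i : ℝ) / 2 + 1 < s.re → Λ s = LFun B s) ∧
    meromorphicOrderAt Λ (edgePoint i τ) = m

/-- `F` is a number field, and `L(H^i(X_F), s)` has a meromorphic continuation to a neighbourhood of
`i/2 + 1 + iτ`, of order `m` at this point. -/
def OrderOver (X : Set (MvPolynomial (Fin n) (𝓞 K))) (d i N : ℕ) (F : Type) [Field F]
    [Algebra K F] (τ : ℝ) (m : ℤ) : Prop :=
  ∃ (_ : NumberField F) (B : HeightOneSpectrum (𝓞 F) → ℂ[X]),
    IsEulerSystem X d i N τ B ∧ HasOrder i τ B m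

end

section
variable {K : Type} [Field K] [NumberField K] {n : ℕ} (X : Set (MvPolynomial (Fin n) (𝓞 K)))
  (d i N : ℕ)

/-- The field `M` and the set `Θ` of heights govern the size and the order over `F` at the points
`s_τ = i/2 + 1 + iτ` of the edge line, with precision `1/k`.  If `τ` is not in `Θ`, then
`|log |L(H^i(X_F), s_τ + ε)| / log(1/ε)| < 1/k` for arbitrarily small `ε > 0` (no continuation is
assumed here), and the order of `L(H^i(X_F), s)` at `s_τ` is zero, if there is a continuation.  For all
`τ` the quotients of logarithms for `F` and for `F ∩ M` differ by less than `1/k` for arbitrarily small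
`ε > 0` (no continuation is assumed here), and the orders at `s_τ` are equal, if both functions have
continuations. -/
def Governed (k : ℕ) (M : IntermediateField K (AlgebraicClosure K)) (Θ : Finset ℝ)
    (F : IntermediateField K (AlgebraicClosure K)) : Prop :=
  (∀ [NumberField F] (τ : ℝ) (B : HeightOneSpectrum (𝓞 F) → ℂ[X]), τ ∉ Θ →
    IsEulerSystem X d i N τ B → ∃ᶠ ε : ℝ in 𝓝[>] 0, |size i τ B ε| < 1 / k) ∧
  (∀ (τ : ℝ) (m : ℤ), τ ∉ Θ → OrderOver X d i N F τ m → m = 0) ∧
  (∀ [NumberField F] [NumberField (F ⊓ M : IntermediateField K (AlgebraicClosure K))] (τ : ℝ)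
    (B : HeightOneSpectrum (𝓞 F) → ℂ[X])
    (B' : HeightOneSpectrum (𝓞 (F ⊓ M : IntermediateField K (AlgebraicClosure K))) → ℂ[X]),
    IsEulerSystem X d i N τ B → IsEulerSystem X d i N τ B' →
    ∃ᶠ ε : ℝ in 𝓝[>] 0, |size i τ B ε - size i τ B' ε| < 1 / k) ∧
  ∀ (τ : ℝ) (m m' : ℤ), OrderOver X d i N F τ m →
    OrderOver X d i N (F ⊓ M : IntermediateField K (AlgebraicClosure K)) τ m' → m = m'

/-- There are a finite Galois extension `M` of `K` and a set `Θ` of at most `2 c (kN)²` real numbers that
govern the edge line with precision `1/k` for all number fields `F ⊇ K` for which `F ⊗_K F` is a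
product of at most `c` fields.  There are such `M` and `Θ` with `[M : K] ≤ (c!)^(2 c (kN)²)` for all
number fields `F ⊇ K` of degree at most `c`. -/
def EdgeGoverned (c k : ℕ) : Prop :=
  (∃ (M : IntermediateField K (AlgebraicClosure K)) (Θ : Finset ℝ), FiniteDimensional K M ∧
    IsGalois K M ∧ Θ.card ≤ 2 * c * (k * N) ^ 2 ∧
    ∀ F : IntermediateField K (AlgebraicClosure K),
      Nat.card (MaximalSpectrum (F ⊗[K] F)) ≤ c → Governed X d i N k M Θ F) ∧
  ∃ (M : IntermediateField K (AlgebraicClosure K)) (Θ : Finset ℝ), FiniteDimensional K M ∧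
    IsGalois K M ∧ Θ.card ≤ 2 * c * (k * N) ^ 2 ∧
    Module.finrank K M ≤ c.factorial ^ (2 * c * (k * N) ^ 2) ∧
    ∀ F : IntermediateField K (AlgebraicClosure K),
      Module.finrank K F ≤ c → Governed X d i N k M Θ F

open Classical in
/-- The order over the field `M`, `K ⊆ M ⊆ L`, expected from the orders over the Young subfields:
the order over `L` if `M` contains `K(√disc F)`, and the order over `K` if not. -/
noncomputable def expected (F : Type) [Field F] [NumberField F] [Algebra K F]
    (m : Setoid (F →ₐ[K] AlgebraicClosure K) → ℤ)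
    (M : IntermediateField K (AlgebraicClosure K)) : ℤ :=
  if quadField K F ≤ M then m ⊥ else m ⊤

open Classical in
/-- Let `F/K` be an extension of degree at least `n₀` such that all permutations of the embeddings of
`F` are given by the absolute Galois group of `K`, and `τ` real.  Suppose that the `L`-functions over
all Young subfields of the closure `L` have meromorphic continuations to neighbourhoods of
`i/2 + 1 + iτ`, and let `m r` be the order for the Young subfield of `r`.  Then for every field `M`
between `K` and `L` the `L`-function is different from zero at `i/2 + 1 + iτ + ε` for small `ε > 0`, its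
size tends to `-k` for the expected order `k`, and if it has a continuation, then its order is `k`.
Moreover `|m ⊤| + |m ⊥ - m ⊤| ≤ N`, and even `≤ 2N/π` if `τ ≠ 0`. -/
def SymmetricEdge (n₀ : ℕ) : Prop :=
  ∀ (F : Type) [Field F] [NumberField F] [Algebra K F] (τ : ℝ), Function.Surjective (perm K F) →
    n₀ ≤ Module.finrank K F → ∀ m : Setoid (F →ₐ[K] AlgebraicClosure K) → ℤ,
    (∀ r, OrderOver X d i N (youngField K F r) τ (m r)) →
    (∀ (M : IntermediateField K (AlgebraicClosure K)) [NumberField M], M ≤ closure K F →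
      ∀ B : HeightOneSpectrum (𝓞 M) → ℂ[X], IsEulerSystem X d i N τ B →
      (∀ᶠ ε : ℝ in 𝓝[>] 0, LFun B (edgePoint i τ + ε) ≠ 0) ∧
      Tendsto (size i τ B) (𝓝[>] 0) (𝓝 (-(expected F m M : ℝ))) ∧
      ∀ k : ℤ, HasOrder i τ B k → k = expected F m M) ∧
    (|m ⊤| + |m ⊥ - m ⊤| : ℝ) ≤ if τ = 0 then (N : ℝ) else 2 * N / Real.pi

end

end Pool.Agent.W353.EH
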