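import Pool.Agent.W353.EH.Defs
import Pool.Agent.W353.EF.Main

/-! The orders on the edge line over extension fields: proofs. -/

set_option autoImplicit false

namespace Pool.Agent.W353.EH

open NumberField IsDedekindDomain Filter Topology Polynomial IntermediateField
open Pool.Agent.W353.EF (IsFrobenius LFun perm closure youngField quadField)
open scoped TensorProduct

section
open Pool.Agent.W353.AB Pool.Agent.W353.PV Pool.Agent.W353.TP
variable {K : Type} [Field K] [NumberField K] {n : ℕ}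

/-- **One finite extension and one finite set of heights govern.** -/
theorem govH (X : Set (MvPolynomial (Fin n) (𝓞 K))) (d i N c k : ℕ) (hk : 1 ≤ k)
    (P : ∀ (F : IntermediateField K (Om K)) [NumberField F], Prop)
    (hP : ∀ (F : IntermediateField K (Om K)) [NumberField F], P F →
      Nat.card (MaximalSpectrum (F ⊗[K] F)) ≤ c)
    (hP' : ∀ (F F₀ : IntermediateField K (Om K)) [NumberField F] [NumberField F₀],
      F₀ ≤ F → P F → P F₀) :
    ∃ (M : IntermediateField K (Om K)) (Θ : Finset ℝ), FiniteDimensional K M ∧ IsGalois K M ∧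
      Θ.card ≤ 2 * c * (k * N) ^ 2 ∧
      ((∀ (F : IntermediateField K (Om K)) [NumberField F], P F → Module.finrank K F ≤ c) →
          Module.finrank K M ≤ c.factorial ^ (2 * c * (k * N) ^ 2)) ∧
      (∀ (F : IntermediateField K (Om K)) [NumberField F] (e : Fin 0 → 𝓞 F) (τ : ℝ) (A : ℝ → ℝ)
        (_ : (syX X d i N).IsSize (F := F) e τ A), P F → τ ∉ Θ →
        (∃ᶠ ε : ℝ in 𝓝[>] 0, |A ε| < 1 / k) ∧
        ∀ x : ℝ, Tendsto A (𝓝[>] 0) (𝓝 x) → |x| < 1 / k) ∧
      (∀ (F F₀ : IntermediateField K (Om K)) [NumberField F] [NumberField F₀],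
        F₀ = F ⊓ M → ∀ (e : Fin 0 → 𝓞 F) (e₀ : Fin 0 → 𝓞 F₀) (τ : ℝ) (A B : ℝ → ℝ)
        (_ : (syX X d i N).IsSize (F := F) e τ A) (_ : (syX X d i N).IsSize (F := F₀) e₀ τ B),
        P F → (∃ᶠ ε : ℝ in 𝓝[>] 0, |A ε - B ε| < 1 / k) ∧
          ∀ x y : ℝ, Tendsto A (𝓝[>] 0) (𝓝 x) → Tendsto B (𝓝[>] 0) (𝓝 y) →
            |x - y| < 1 / k) := by
  have hinum : ∀ (F : IntermediateField K (Om K)) [NumberField F] (e : Fin 0 → 𝓞 F) (j : Unit),
      inum K F F (((syX X d i N).D e j : 𝓞 F) : F) (((syX X d i N).D e j : 𝓞 F) : F) ≤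
        Nat.card (MaximalSpectrum (F ⊗[K] F)) := by
    intro F _ e j
    exact Nat.card_le_card_of_injective _ Subtype.val_injective
  obtain ⟨M, Θ, h1, h2, h3, h4, h5, h6, h7⟩ := govern (syX X d i N) c k c N hk
    (syX_b X d i N).symm (fun F _ _ => P F) (fun F _ e h j _ => (hinum F e j).trans (hP F h))
  refine ⟨M, Θ, h1, h2, h4, fun h => ?_, ?_, ?_⟩
  · have h8 := h5 fun F _ e hF => h F hF
    have h9 : 4 ^ (syX X d i N).r * c = c := by
      have : (syX X d i N).r = 0 := rfl
      rw [this, pow_zero, one_mul]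
    rwa [h9] at h8
  · intro F _ e τ A hA hPF hτ
    exact h6 F e (fun j => Fin.elim0 j) τ A hA hPF (Or.inl hτ)
  · intro F F₀ _ _ hFF e e₀ τ A B hA hB hPF
    have hPF₀ : P F₀ := hP' F F₀ (by rw [hFF]; exact inf_le_left) hPF
    exact h7 F F₀ hFF e e₀ (fun j => Fin.elim0 j) (fun j => Fin.elim0 j) τ A B hA hB hPF
      hPF₀ (by
        intro j _
        have e1 : prA (syX X d i N) e j = 1 := by
          have : (syX X d i N).D e j = 1 := Finset.prod_empty
          unfold prA
          rw [this]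
          rfl
        have e2 : prA (syX X d i N) e₀ j = 1 := by
          have : (syX X d i N).D e₀ j = 1 := Finset.prod_empty
          unfold prA
          rw [this]
          rfl
        left
        rw [e1, e2]
        exact ⟨⟨1, one_mem _, by ring⟩, ⟨1, one_mem _, by ring⟩⟩)

end

open Classical in
open Pool.Agent.W353.NF Pool.Agent.W353.AB Pool.Agent.W353.SN Pool.Agent.W353.PV in
/-- the two results together -/
theorem all (N : ℕ) : ∃ n₀ : ℕ, ∀ (K : Type) [Field K] [NumberField K] (n d i : ℕ)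
    (X : Set (MvPolynomial (Fin n) (𝓞 K))), i ≤ 2 * d →
    (∀ c k : ℕ, 1 ≤ k → EdgeGoverned X d i N c k) ∧ SymmetricEdge X d i N n₀ := by
  classical
  obtain ⟨n₁, hbig⟩ := big (N : ℝ)
  refine ⟨n₁, fun K _ _ n d i X hi => ?_⟩
  have hkap : ∀ τ, kap τ ≤ 1 := by
    intro τ
    unfold kap
    split_ifs
    · exact le_rfl
    · rw [div_le_one Real.pi_pos]
      linarith [Real.pi_gt_three]
  have e0 : ∀ τ : ℝ, ((((i : ℝ) / 2 : ℝ) : ℂ) + 1 + (τ : ℂ) * Complex.I) = edgePoint i τ := by
    intro τ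
    unfold edgePoint
    push_cast
    ring
  have hsz : ∀ (F : Type) [Field F] [NumberField F] [Algebra K F] (τ : ℝ)
      (B : HeightOneSpectrum (𝓞 F) → ℂ[X]) (e : Fin 0 → 𝓞 F), IsEulerSystem X d i N τ B →
      (∀ᶠ ε : ℝ in 𝓝[>] 0, LFun B (edgePoint i τ + ε) ≠ 0) ∧
      (syX X d i N).IsSize (F := F) e τ (size i τ B) := by
    intro F _ _ _ τ B e hB
    have h := size_X hi B hB.1 τ (by rw [e0]; exact hB.2) e
    rw [e0] at h
    exact h
  have hlim : ∀ (F : Type) [Field F] [NumberField F] [Algebra K F] (τ : ℝ)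
      (B : HeightOneSpectrum (𝓞 F) → ℂ[X]), IsEulerSystem X d i N τ B →
      ∀ m : ℤ, HasOrder i τ B m → Tendsto (size i τ B) (𝓝[>] 0) (𝓝 (-(m : ℝ))) := by
    intro F _ _ _ τ B hB m hm
    obtain ⟨Λ, h1, h2, h3⟩ := hm
    exact lim_ord (hsz F τ B (fun _ => 1) hB).1 h1 (h2.mono fun s hs hs' => hs (by
      have e : (edgePoint i τ).re = (i : ℝ) / 2 + 1 := by
        unfold edgePoint
        simp
      rw [← e]
      exact hs')) h3
  have hint : ∀ m m' : ℤ, |(m : ℝ) - m'| < 1 → m = m' := by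
    intro m m' h
    have h1 : |m - m'| < 1 := by exact_mod_cast h
    rw [Int.abs_lt_one_iff] at h1
    omega
  have hint2 : ∀ (k : ℕ) (_ : 1 ≤ k) (m m' : ℤ), |-(m : ℝ) - -(m' : ℝ)| < 1 / k → m = m' := by
    intro k hk m m' h
    refine hint m m' ?_
    have e : |-(m : ℝ) - -(m' : ℝ)| = |(m : ℝ) - m'| := by
      rw [← abs_neg]
      congr 1
      ring
    rw [e] at h
    have hkR : (1 : ℝ) ≤ k := by exact_mod_cast hk
    refine lt_of_lt_of_le h ?_
    rw [div_le_one (by linarith)]
    exact hkR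
  have hgov : ∀ (c k : ℕ) (_ : 1 ≤ k)
      (P : ∀ (F : IntermediateField K (AlgebraicClosure K)) [NumberField F],
      Prop) (_ : ∀ (F : IntermediateField K (AlgebraicClosure K)) [NumberField F], P F →
        Nat.card (MaximalSpectrum (F ⊗[K] F)) ≤ c)
      (_ : ∀ (F F₀ : IntermediateField K (AlgebraicClosure K)) [NumberField F] [NumberField F₀],
        F₀ ≤ F → P F → P F₀),
      ∃ (M : IntermediateField K (AlgebraicClosure K)) (Θ : Finset ℝ), FiniteDimensional K M ∧
        IsGalois K M ∧ Θ.card ≤ 2 * c * (k * N) ^ 2 ∧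
        ((∀ (F : IntermediateField K (AlgebraicClosure K)) [NumberField F], P F →
          Module.finrank K F ≤ c) → Module.finrank K M ≤ c.factorial ^ (2 * c * (k * N) ^ 2)) ∧
        ∀ (F : IntermediateField K (AlgebraicClosure K)) [NumberField F], P F →
          Governed X d i N k M Θ F := by
    intro c k hk P hP hP'
    obtain ⟨M, Θ, h1, h2, h3, h4, h5, h6⟩ := govH X d i N c k hk P hP hP'
    refine ⟨M, Θ, h1, h2, h3, h4, fun F _ hF => ⟨?_, ?_, ?_, ?_⟩⟩
    · intro _ τ B hτ hB
      exact (h5 F (fun _ => 1) τ (size i τ B) (hsz F τ B (fun _ => 1) hB).2 hF hτ).1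
    · rintro τ m hτ ⟨hnf, B, hB, hm⟩
      have h7 := (h5 F (fun _ => 1) τ (size i τ B) (hsz F τ B (fun _ => 1) hB).2 hF hτ).2 _
        (hlim F τ B hB m hm)
      refine hint2 k hk m 0 ?_
      simpa using h7
    · intro _ _ τ B B' hB hB'
      exact (h6 F (F ⊓ M) rfl (fun _ => 1) (fun _ => 1) τ (size i τ B) (size i τ B')
        (hsz F τ B (fun _ => 1) hB).2 (hsz _ τ B' (fun _ => 1) hB').2 hF).1
    · rintro τ m m' ⟨hnf, B, hB, hm⟩ ⟨_, B', hB', hm'⟩
      exact hint2 k hk m m' ((h6 F (F ⊓ M) rfl (fun _ => 1) (fun _ => 1) τ (size i τ B)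
        (size i τ B') (hsz F τ B (fun _ => 1) hB).2 (hsz _ τ B' (fun _ => 1) hB').2 hF).2 _ _
        (hlim F τ B hB m hm) (hlim _ τ B' hB' m' hm'))
  have hnfG : ∀ (k : ℕ) (M F : IntermediateField K (AlgebraicClosure K)) (Θ : Finset ℝ),
      (∀ [NumberField F], Governed X d i N k M Θ F) → Governed X d i N k M Θ F := by
    intro k M F Θ h
    refine ⟨fun {hnf} τ B hτ hB => (@h hnf).1 τ B hτ hB, fun τ m hτ hm => ?_,
      fun {hnf} _ τ B B' hB hB' => (@h hnf).2.2.1 τ B B' hB hB', fun τ m m' hm hm' => ?_⟩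
    · obtain ⟨hnf, -⟩ := id hm
      exact h.2.1 τ m hτ hm
    · obtain ⟨hnf, -⟩ := id hm
      exact h.2.2.2 τ m m' hm hm'
  refine ⟨fun c k hk => ⟨?_, ?_⟩, ?_⟩
  · obtain ⟨M, Θ, h1, h2, h3, -, h4⟩ := hgov c k hk
      (fun F _ => Nat.card (MaximalSpectrum (F ⊗[K] F)) ≤ c) (fun F _ h => h)
      (fun F F₀ _ _ h hF => (rank_mono h).trans hF)
    exact ⟨M, Θ, h1, h2, h3, fun F hF => hnfG k M F Θ (h4 F hF)⟩
  · obtain ⟨M, Θ, h1, h2, h3, h5, h4⟩ := hgov c k hk
      (fun F _ => Module.finrank K F ≤ c)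
      (fun F _ h => by
        refine le_trans ?_ h
        rw [Nat.card_eq_fintype_card]
        exact Pool.Agent.W353.TP.card_max_le K F F)
      (fun F F₀ _ _ h hF => (Pool.Agent.W353.TP.finrank_mono' h).trans hF)
    exact ⟨M, Θ, h1, h2, h3, h5 fun F _ h => h, fun F hF => hnfG k M F Θ (h4 F hF)⟩
  · intro F _ _ _ τ hF hn m hm
    -- the fields of the Young subgroups
    have hyoung : ∀ r : Setoid (F →ₐ[K] AlgebraicClosure K), youngField K F r =
        MH K F (yg r) := fun r => rfl
    have hbot : yg (⊥ : Setoid (F →ₐ[K] AlgebraicClosure K)) = ⊥ := by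
      ext g
      rw [mem_yg, Subgroup.mem_bot]
      constructor
      · intro h
        exact Equiv.ext fun x => (h x).symm
      · intro h x
        rw [h]
        rfl
    have htop : yg (⊤ : Setoid (F →ₐ[K] AlgebraicClosure K)) = ⊤ := by
      ext g
      exact ⟨fun _ => trivial, fun _ _ => trivial⟩
    -- the limits
    have core : ∀ 𝒰 : Ultrafilter ℝ, (𝒰 : Filter ℝ) ≤ 𝓝[>] 0 → ∃ a b : ℤ,
        m ⊥ = -(a + b) ∧
        m ⊤ = -(a + b * (if (∀ h ∈ (⊤ : Subgroup (PX K F)), Equiv.Perm.sign h = 1) then 1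
          else 0)) ∧
        |((a + b : ℤ) : ℝ)| ≤ N * kap τ ∧
        ((∃ h : PX K F, Equiv.Perm.sign h ≠ 1) → |((a - b : ℤ) : ℝ)| ≤ N * kap τ) ∧
        ∀ (H : Subgroup (PX K F)) [NumberField (MH K F H)] (Y : ℝ → ℝ),
          (syX X d i N).IsSize (F := MH K F H) (fun _ => 1) τ Y → Tendsto Y 𝒰
            (𝓝 ((a + b * (if (∀ h ∈ H, Equiv.Perm.sign h = 1) then 1 else 0) : ℤ) : ℝ)) := by
      intro 𝒰 h𝒰
      obtain ⟨θ, hθb, hθc, hθs⟩ := exists_theta (K := K) (F := F) (syX X d i N)
        (syX_real X d i N) hF τ 𝒰 h𝒰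
      rw [syX_b] at hθb
      have hθb' : ∀ g, |θ g| ≤ N := fun g => (hθb g).trans
        (mul_le_of_le_one_right (Nat.cast_nonneg _) (hkap τ))
      -- sums over the subgroups
      have hsum : ∀ (H : Subgroup (PX K F)) (k : ℤ), OrderOver X d i N (MH K F H) τ k →
          ∑ᶠ h : H, θ h = ((-k : ℤ) : ℝ) * Nat.card H := by
        rintro H k ⟨hnf, B, hB, hk⟩
        have h5 := (hlim (MH K F H) τ B hB k hk).mono_left h𝒰
        have h6 := hθs H _ (hsz (MH K F H) τ B (fun _ => 1) hB).2
        rw [tendsto_nhds_unique h6 (h5.const_mul (Nat.card H : ℝ))]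
        push_cast
        ring
      have hYS : YS θ := by
        intro r
        have h1 := hm r
        rw [hyoung] at h1
        exact ⟨_, hsum (yg r) _ h1⟩
      obtain ⟨a, b, hab⟩ : Lin θ := by
        refine hbig _ ?_ θ (fun g u => hθc g u) hYS hθb'
        have h1 : Fintype.card (F →ₐ[K] AlgebraicClosure K) = Module.finrank K F :=
          AlgHom.card K F (AlgebraicClosure K)
        convert hn
      have hHsum : ∀ H : Subgroup (PX K F), ∑ᶠ h : H, θ h =
          ((a + b * (if (∀ h ∈ H, Equiv.Perm.sign h = 1) then 1 else 0) : ℤ) : ℝ) *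
            Nat.card H := by
        intro H
        have h1 := sum_sub H θ a b
        have h2 : ∑ᶠ h : H, (θ h - (a + b * ((Equiv.Perm.sign (h : PX K F) : ℤ) : ℝ))) = 0 := by
          rw [← finsum_zero (α := H)]
          refine finsum_congr fun h => ?_
          rw [hab, sub_self]
        rw [h2, sum_sign] at h1
        have h3 : ∑ᶠ h : H, θ h = a * Nat.card H + b * (if ∀ h ∈ H, Equiv.Perm.sign h = 1 then
            (Nat.card H : ℝ) else 0) := by linarith
        rw [h3]
        split_ifs <;> push_cast <;> ring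
      have hne : ∀ H : Subgroup (PX K F), (Nat.card H : ℝ) ≠ 0 := fun H => by
        exact_mod_cast Nat.card_pos.ne'
      have hord : ∀ (H : Subgroup (PX K F)) (k : ℤ), OrderOver X d i N (MH K F H) τ k →
          k = -(a + b * (if (∀ h ∈ H, Equiv.Perm.sign h = 1) then 1 else 0)) := by
        intro H k hk
        have h1 := hsum H k hk
        rw [hHsum] at h1
        have h3 := mul_right_cancel₀ (hne H) h1
        have h4 : a + b * (if (∀ h ∈ H, Equiv.Perm.sign h = 1) then 1 else 0) = -k := by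
          exact_mod_cast h3
        rw [h4, neg_neg]
      refine ⟨a, b, ?_, hord ⊤ (m ⊤) (by rw [← htop, ← hyoung]; exact hm ⊤), ?_, ?_, ?_⟩
      · have h1 := hord ⊥ (m ⊥) (by rw [← hbot, ← hyoung]; exact hm ⊥)
        rw [if_pos (fun h hh => by rw [(Subgroup.mem_bot).1 hh, Equiv.Perm.sign_one]),
          mul_one] at h1
        exact h1
      · have h1 := hθb 1
        rw [hab 1, Equiv.Perm.sign_one] at h1
        push_cast at h1 ⊢
        rwa [mul_one] at h1
      · rintro ⟨g, hg⟩
        have hg' : Equiv.Perm.sign g = -1 := (Int.units_eq_one_or _).resolve_left hg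
        have h2 := hθb g
        rw [hab, hg'] at h2
        push_cast at h2 ⊢
        rwa [mul_neg, mul_one, ← sub_eq_add_neg] at h2
      · intro H _ Y hY
        have h1 := (hθs H Y hY).const_mul ((Nat.card H : ℝ)⁻¹)
        rw [hHsum] at h1
        have e : (Nat.card H : ℝ)⁻¹ * (((a + b * (if (∀ h ∈ H, Equiv.Perm.sign h = 1) then 1 else
            0) : ℤ) : ℝ) * Nat.card H) =
            ((a + b * (if (∀ h ∈ H, Equiv.Perm.sign h = 1) then 1 else 0) : ℤ) : ℝ) := by
          rw [mul_comm, mul_assoc, mul_inv_cancel₀ (hne H), mul_one]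
        rw [e] at h1
        refine h1.congr fun ε => ?_
        rw [inv_mul_cancel_left₀ (hne H)]
    refine ⟨fun M _ hM B hB => ?_, ?_⟩
    · obtain ⟨H, hH⟩ : ∃ H, M = MH K F H := ⟨_, eq_MH K F hM⟩
      subst hH
      have hsz' := hsz (MH K F H) τ B (fun _ => 1) hB
      have hiff : (∀ h ∈ H, Equiv.Perm.sign h = 1) ↔ quadField K F ≤ MH K F H := by
        have h3 : quadField K F =
            MH K F (Equiv.Perm.sign (α := F →ₐ[K] AlgebraicClosure K)).ker := rfl
        rw [h3]
        constructor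
        · intro h
          exact IntermediateField.fixedField_antitone (Subgroup.comap_mono h)
        · intro h g hg
          obtain ⟨σ, rfl⟩ := hF g
          have h4 := IntermediateField.fixingSubgroup_antitone h
          rw [fix_MH, fix_MH] at h4
          exact h4 (show σ ∈ H.comap (act K F) from hg)
      have hlimM : Tendsto (size i τ B) (𝓝[>] 0) (𝓝 (-(expected F m (MH K F H) : ℝ))) := by
        unfold expected
        rw [tendsto_iff_ultrafilter]
        intro 𝒰 h𝒰
        obtain ⟨a, b, h1, h2, -, -, h3⟩ := core 𝒰 h𝒰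
        have h4 := h3 H (size i τ B) hsz'.2
        convert h4 using 2
        by_cases hQ : quadField K F ≤ MH K F H
        · rw [if_pos hQ, if_pos (hiff.2 hQ), h1]
          push_cast
          ring
        · rw [if_neg hQ, if_neg (fun h => hQ (hiff.1 h)), h2, if_neg]
          · push_cast
            ring
          · intro h
            exact hQ (hiff.1 fun g hg => h g trivial)
      refine ⟨hsz'.1, hlimM, fun k hk => ?_⟩
      have h5 := neg_injective (tendsto_nhds_unique (hlim (MH K F H) τ B hB k hk) hlimM)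
      exact_mod_cast h5
    · obtain ⟨a, b, h1, h2, h3, h4, -⟩ := core (Ultrafilter.of (𝓝[>] 0)) (Ultrafilter.of_le _)
      have hbd : ((|m ⊤| + |m ⊥ - m ⊤| : ℤ) : ℝ) ≤ N * kap τ := by
        by_cases hall : ∀ g : PX K F, Equiv.Perm.sign g = 1
        · rw [if_pos fun g _ => hall g, mul_one] at h2
          rw [h1, h2, sub_self, abs_zero, add_zero, abs_neg]
          exact_mod_cast h3
        · have hall' : ¬ ∀ g ∈ (⊤ : Subgroup (PX K F)), Equiv.Perm.sign g = 1 := fun h =>
            hall fun g => h g trivial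
          rw [if_neg hall', mul_zero, add_zero] at h2
          push Not at hall
          have h5 := h4 hall
          rw [h1, h2]
          have e : -(a + b) - -a = -b := by ring
          rw [e, abs_neg, abs_neg]
          push_cast at h3 h5 ⊢
          rcases abs_cases (a : ℝ) with ⟨g3, -⟩ | ⟨g3, -⟩ <;>
            rcases abs_cases (b : ℝ) with ⟨g4, -⟩ | ⟨g4, -⟩ <;> rw [g3, g4] <;>
            rcases abs_le.1 h3 with ⟨g5, g6⟩ <;> rcases abs_le.1 h5 with ⟨g7, g8⟩ <;> linarith
      push_cast at hbd ⊢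
      refine hbd.trans (le_of_eq ?_)
      unfold kap
      split_ifs
      · rw [mul_one]
      · ring

end Pool.Agent.W353.EH
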